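import Mathlib
import Pool.Agent.K7.H27.MK.UnF

set_option autoImplicit false

/-!
# An infinite ternary word whose only abelian squares are `aa` and `aaaa`

There is an infinite ternary word in which every abelian square is `aa` or `aaaa` for a single letter `a`. In
particular no abelian square has period three or more, and the only ones of period two are `0000`, `1111`, `2222`.

Let `ω` be a primitive cube root of unity. The word is the concatenation over `j = 0, 1, 2, ...` of the blocks
`g (s j)` of length 151 with all letters shifted cyclically by `j`, where `g 0`, `g 1` are two ternary words and
`s` is a self-similar binary sequence (blocks of length 301) in which no two adjacent factors of equal length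
divisible by three have the same sum of `s i * ω ^ i`. With the letters as `1, ω, ω ^ 2`, abelian squares descend
to additive squares of `s` modulo a principal ideal; the finitely many coincidences modulo the ideal are checked
by the kernel, both for `g` and for the self-similarity of `s`. The factors of length four are checked directly.
-/

namespace Pool.Agent.Results.MP_1f24c5_co.UnarySquares

/-- There is an infinite word over `{0,1,2}` such that whenever a factor `uv` has `u` and `v` of equal length
`n ≥ 1` containing each letter the same number of times, `n` is at most `2` and all `2 n` letters of `uv` are
equal. -/
theorem result :
    ∃ w : ℕ → Fin 3, ∀ i n : ℕ, 1 ≤ n →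
      (∀ a : Fin 3,
          ((Finset.range n).filter (fun k => w (i + k) = a)).card =
          ((Finset.range n).filter (fun k => w (i + n + k) = a)).card) →
      n ≤ 2 ∧ ∀ k, k < 2 * n → w (i + k) = w i :=
  Pool.Agent.K7.H27.MK.UnF.main

end Pool.Agent.Results.MP_1f24c5_co.UnarySquares
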